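import Pool.Agent.H62.HC.COMCb

/-!
# COMC: the sum over `n`, complex values
-/

set_option autoImplicit false

open NumberField Complex Filter Topology MeasureTheory
open scoped ContDiff nonZeroDivisors

namespace Pool.Agent.H62.HC

open Pool.Agent.H33.HC Pool.Agent.H33.HH Pool.Agent.H28.RC Pool.Agent.H37.CV Pool.Agent.H96.CV
  Pool.Agent.H10.HH

open scoped Classical in
/-- COMC -/
theorem pf_COMC (h1 : T_CO1C) (h2 : T_SPC) (h3 : T_SSC) (h4 : T_SGC) (h5 : T_PSC) (h6 : T_LGC)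
    (h7 : Pool.Agent.H33.HH.T_HSU) (h8 : Pool.Agent.H33.HH.T_IDF) : T_COMC := by
  intro K _ _ _ P W G H k θ e C₀ hW hW1 hG hH hk hpar hC₀
  obtain ⟨A₁, hA₁, hps⟩ := h5 K W H hW hW1 hH
  obtain ⟨A₂, hA₂, hGs⟩ := h4 G hG
  obtain ⟨C₁, hC₁, hco⟩ := h1 K P
  obtain ⟨C₂, hC₂, hlg⟩ := h6
  set B : ℝ := 2 * (1 + A₂) * (1 + A₂) with hB
  have hB0 : 0 ≤ B := by positivity
  have hpar' := hpar
  obtain ⟨hθ, he, hle⟩ := hpar
  set δ₀ : ℝ := min e (1 - θ) / 8 with hδ₀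
  have hδ₀p : 0 < δ₀ := by
    have : 0 < min e (1 - θ) := lt_min he (by linarith)
    positivity
  have hd1 : δ₀ ≤ (1 - θ) / 8 := by
    have : min e (1 - θ) ≤ 1 - θ := min_le_right _ _
    linarith
  have hd2 : δ₀ ≤ e / 8 := by
    have : min e (1 - θ) ≤ e := min_le_left _ _
    linarith
  obtain ⟨C₃, hC₃, -, hdv⟩ := (Pool.Agent.H86.CV.pf_DV K).1 (δ₀ / 4) (by positivity)
  have hk0 : k ≠ ⊥ := hk.1
  have hk1 : 1 ≤ nm k := one_le_nm hk0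
  set c₀ : ℝ := nm k * nS np (SP K P) with hc₀
  have hc₀p : 0 < c₀ := mul_pos (by linarith) (nS_pos _)
  set φ : ℝ := ∏ p ∈ SP K P, (1 - 1 / np p) with hφ
  have hφp : 0 < φ := by
    refine Finset.prod_pos fun p _ => ?_
    have h1 := two_le_np p
    rw [sub_pos, div_lt_one (by linarith)]
    linarith
  have hrh : 0 ≤ rh K := by
    unfold rh hc wu sd
    positivity
  have hrk : rk K P = rh K * φ := rfl
  have hrk0 : 0 ≤ rk K P := by rw [hrk]; positivity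
  set cc : ℝ := 2 * C₀ with hcc
  set E₀ : ℝ := Real.exp (1 * C₀) with hE₀
  have hE₀p : 0 < E₀ := Real.exp_pos _
  set D₁ : ℝ := 1 + 2 * (1 + 2 * A₁) * (1 + B) with hD₁
  set D : ℝ := C₁ * D₁ * Real.exp (1 * cc) + rk K P * Real.exp ((1 + e) * cc) *
    (C₂ * (1 + 2 * A₁) * (1 + B) * c₀ ^ (1 / 8 : ℝ)) with hD
  have hD0 : 0 ≤ D := by positivity
  set n₀ : ℝ := ((SP K P).powerset.card : ℝ) with hn₀
  refine ⟨δ₀ / 2, 1 / 2 * rh K * W1 W * n₀ * (E₀ * E₀ * D) * C₃ ^ 2, 1,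
    max (Real.exp (1 + 32 * C₀)) (c₀ ^ (1 / e)), by positivity, by positivity, zero_le_one,
    le_max_of_le_left (Real.one_le_exp (by positivity)), ?_⟩
  intro Q hQ S hS T hT α β u hAd hw0
  have hQe : Real.exp (1 + 32 * C₀) ≤ Q := (le_max_left _ _).trans hQ
  have hQ0 : 0 < Q := (Real.exp_pos _).trans_le hQe
  have hlQ : 1 + 32 * C₀ ≤ Real.log Q := by
    rw [Real.le_log_iff_exp_le hQ0]
    exact hQe
  have hQ1 : 1 < Q := by
    have : 1 < Real.exp (1 + 32 * C₀) := Real.one_lt_exp_iff.2 (by positivity)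
    linarith
  have hlQ0 : 0 < Real.log Q := by linarith
  have hQc : c₀ * Q ^ (-e) ≤ 1 := by
    have h1 : c₀ ^ (1 / e) ≤ Q := le_trans (le_max_right _ _) hQ
    have h2 : c₀ ≤ Q ^ e := by
      calc c₀ = (c₀ ^ (1 / e)) ^ e := by
            rw [← Real.rpow_mul hc₀p.le, one_div, inv_mul_cancel₀ he.ne', Real.rpow_one]
        _ ≤ Q ^ e := Real.rpow_le_rpow (by positivity) h1 he.le
    rw [Real.rpow_neg hQ0.le, ← div_eq_mul_inv, div_le_one (Real.rpow_pos_of_pos hQ0 _)]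
    exact h2
  obtain ⟨hα, hβ⟩ := hAd
  have hsm : C₀ / Real.log Q ≤ 1 / 32 := by
    rw [div_le_iff₀ hlQ0]
    linarith
  have hwc : ‖α + β‖ ≤ cc / Real.log Q := by
    calc ‖α + β‖ ≤ ‖α‖ + ‖β‖ := norm_add_le _ _
      _ ≤ C₀ / Real.log Q + C₀ / Real.log Q := add_le_add hα hβ
      _ = _ := by rw [hcc]; ring
  have hw16 : ‖α + β‖ ≤ 1 / 16 := by
    calc ‖α + β‖ ≤ ‖α‖ + ‖β‖ := norm_add_le _ _
      _ ≤ _ := by linarith
  have hN1 : Nr (se α u) := by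
    unfold Nr se
    have h1 : (1 / 2 + α + (u : ℂ) * I).re - 1 / 2 = α.re := by simp
    rw [h1]
    exact (Complex.abs_re_le_norm α).trans (by linarith)
  have hN2 : Nr (se β (-u)) := by
    unfold Nr se
    have h1 : (1 / 2 + β + ((-u : ℝ) : ℂ) * I).re - 1 / 2 = β.re := by simp
    rw [h1]
    exact (Complex.abs_re_le_norm β).trans (by linarith)
  have him : |(se α u).im| ≤ 1 + |u| := by
    unfold se
    have h1 : (1 / 2 + α + (u : ℂ) * I).im = α.im + u := by simp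
    rw [h1]
    refine (abs_add_le _ _).trans ?_
    have := Complex.abs_im_le_norm α
    linarith
  have hy : 1 ≤ Q ^ θ := Real.one_le_rpow hQ1.le hθ.le
  obtain ⟨hS3, hS4, hS5, hS1, hS2, hS6, -⟩ := h8 K P (Q ^ θ) hy S hS
  obtain ⟨hT3, hT4, hT5, hT1, hT2, -⟩ := h8 K P (Q ^ θ) hy T hT
  obtain ⟨-, hsum, habs, -⟩ := h7 K P (Q ^ θ) hy S hS (idS T) k hT3 hT4 hk
  obtain ⟨ps', hps'⟩ := hps (se α u) hN1
  set a : ℝ := A₁ * (1 + |(se α u).im|) with haa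
  have ha0 : 0 ≤ a := by positivity
  have hu0 : 0 ≤ |u| := abs_nonneg u
  have ha1 : 1 + a ≤ (1 + 2 * A₁) * (1 + |u|) := by
    have h1 : a ≤ A₁ * (2 + |u|) := by
      rw [haa]
      exact mul_le_mul_of_nonneg_left (by linarith) hA₁
    nlinarith
  -- the terms
  set X : Finset (PrI K) → Finset (PrI K) → ℂ := fun R₁ R₀ =>
    sumZ (K := K) P (fun n => ((ha R₁ (idS T * n) : ℝ) : ℂ) *
            (((nm n : ℝ) : ℂ) ^ (-1 - (α + β)) *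
            (psc K W H (se α u) (nS np T / (nm k * (nS np R₁ * nS np R₀) * Q) * nm n) *
              (Gs G (se β (-u)) ((Q ^ (1 + e))⁻¹ * nm n) *
                Gs G (se α u) (nS np T / (nS np S * Q ^ (1 + e)) * nm n))))) with hX
  set yc : ℂ := (rk K P : ℂ) * (1 / (α + β) - Lw (α + β) (psc K W H (se α u))) with hyc
  set M : Finset (PrI K) → Finset (PrI K) → ℂ := fun R₁ R₀ =>
    ((fS np (R₁ ∩ T) : ℝ) : ℂ) * (Zc K P (α + β) *
        ∏ p ∈ R₁ \ T, (((np p : ℝ) : ℂ) ^ (-(α + β)) - 1) -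
      (if R₁ ⊆ T then (((nm k * (nS np R₁ * nS np R₀) * Q / nS np T : ℝ)) : ℂ) ^ (-(α + β)) *
        yc else 0)) with hM
  have hQd : 0 < Q ^ (-δ₀) := Real.rpow_pos_of_pos hQ0 _
  have hkey : ∀ R₁ ∈ S.powerset, ∀ R₀ ∈ (SP K P).powerset,
      ‖X R₁ R₀ - M R₁ R₀‖ ≤ D * (1 + |u|) * 2 ^ S.card * fS np (R₁ ∩ T) * Q ^ (-δ₀) := by
    intro R₁ hR₁ R₀ hR₀
    have hf0 := fS_nonneg (R₁ ∩ T)
    refine (keyC h2 h3 h8 P k hk0 θ e hpar' a A₂ B C₁ C₂ (rk K P) cc (psc K W H (se α u))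
      (Gs G (se α u)) (Gs G (se β (-u))) ps' _ _ (α + β) hw0 hw16 ha0 hA₂ hB hC₁ hC₂ hrk0 hps'
      (hGs _ hN1) (hGs _ hN2) (Zc K P (α + β)) hco rfl rfl hlg Q δ₀ c₀ hQ1 hc₀ hQc hwc hd1 hd2
      S hS T hT R₁ hR₁ R₀ hR₀).trans ?_
    have b1 : (1 + a) * (1 + B) ≤ (1 + 2 * A₁) * (1 + B) * (1 + |u|) := by
      calc (1 + a) * (1 + B) ≤ ((1 + 2 * A₁) * (1 + |u|)) * (1 + B) :=
            mul_le_mul_of_nonneg_right ha1 (by linarith)
        _ = _ := by ring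
    have b2 : 1 + 2 * (1 + a) * (1 + B) ≤ D₁ * (1 + |u|) := by
      rw [hD₁]
      calc 1 + 2 * (1 + a) * (1 + B) = 1 + 2 * ((1 + a) * (1 + B)) := by ring
        _ ≤ (1 + |u|) + 2 * ((1 + 2 * A₁) * (1 + B) * (1 + |u|)) := by linarith
        _ = _ := by ring
    have b3 : C₁ * (1 + 2 * (1 + a) * (1 + B)) * Real.exp (1 * cc) +
        rk K P * Real.exp ((1 + e) * cc) * (C₂ * (1 + a) * (1 + B) * c₀ ^ (1 / 8 : ℝ)) ≤
        D * (1 + |u|) := by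
      rw [hD]
      calc C₁ * (1 + 2 * (1 + a) * (1 + B)) * Real.exp (1 * cc) +
          rk K P * Real.exp ((1 + e) * cc) * (C₂ * (1 + a) * (1 + B) * c₀ ^ (1 / 8 : ℝ))
          = C₁ * (1 + 2 * (1 + a) * (1 + B)) * Real.exp (1 * cc) +
          rk K P * Real.exp ((1 + e) * cc) * (C₂ * ((1 + a) * (1 + B)) * c₀ ^ (1 / 8 : ℝ)) := by
            ring
        _ ≤ C₁ * (D₁ * (1 + |u|)) * Real.exp (1 * cc) +
          rk K P * Real.exp ((1 + e) * cc) *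
            (C₂ * ((1 + 2 * A₁) * (1 + B) * (1 + |u|)) * c₀ ^ (1 / 8 : ℝ)) := by
            gcongr
        _ = _ := by ring
    calc _ ≤ (D * (1 + |u|)) * 2 ^ S.card * fS np (R₁ ∩ T) * Q ^ (-δ₀) := by
          gcongr
      _ = _ := rfl
  -- the identities
  have hE := exch P Q e hQ0 W H G G G k S T hT5 α β u ((gsc6 hG) (se β (-u)) hN2)
  have hMe := main_eq P Q hQ0 k hk0 S T α β (Zc K P (α + β)) yc φ hsum
  have hfin : ((1 / 2 * W1 W * Q ^ 2 : ℝ) : ℂ) * ((rk K P : ℂ) * Zc K P (α + β) * U1 α β S T -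
      (rh K : ℂ) * ck P k (α + β) * ((nm k * Q : ℝ) : ℂ) ^ (-(α + β)) *
        Yc K P W H (se α u) (α + β) * U2 α β S T) =
      ((1 / 2 * rh K * W1 W * Q ^ 2 : ℝ) : ℂ) *
        (((nS np S : ℝ) : ℂ) ^ (α - 1) * ((nS np T : ℝ) : ℂ) ^ (-1 - α)) *
        ∑ R₁ ∈ S.powerset, ∑ R₀ ∈ (SP K P).powerset, (H33.HH.hk P k R₀ : ℂ) * M R₁ R₀ := by
    have hMe' : (((nS np S : ℝ) : ℂ) ^ (α - 1) * ((nS np T : ℝ) : ℂ) ^ (-1 - α)) *
        ∑ R₁ ∈ S.powerset, ∑ R₀ ∈ (SP K P).powerset, (H33.HH.hk P k R₀ : ℂ) * M R₁ R₀ =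
        (φ : ℂ) * Zc K P (α + β) * U1 α β S T -
          ck P k (α + β) * ((nm k * Q : ℝ) : ℂ) ^ (-(α + β)) * yc * U2 α β S T := hMe
    have hYc : Yc K P W H (se α u) (α + β) = yc := rfl
    rw [mul_assoc (((1 / 2 * rh K * W1 W * Q ^ 2 : ℝ) : ℂ)), hMe', hrk, hYc]
    push_cast
    ring
  rw [hE, hfin, ← mul_sub, norm_mul, norm_mul, norm_mul, ← Finset.sum_sub_distrib]
  have hκ : 0 ≤ 1 / 2 * rh K * W1 W * Q ^ 2 := by positivity
  rw [Complex.norm_real, Real.norm_eq_abs, abs_of_nonneg hκ]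
  have hpS : ‖((nS np S : ℝ) : ℂ) ^ (α - 1)‖ ≤ 1 / nS np S * E₀ :=
    norm_bd' hQ1 hS1 (hS2.trans (Real.rpow_le_rpow_of_exponent_le hQ1.le (by linarith)))
      zero_le_one hα
  have hpT : ‖((nS np T : ℝ) : ℂ) ^ (-1 - α)‖ ≤ 1 / nS np T * E₀ := by
    rw [show -1 - α = -α - 1 by ring]
    exact norm_bd' hQ1 hT1 (hT2.trans (Real.rpow_le_rpow_of_exponent_le hQ1.le (by linarith)))
      zero_le_one (by rwa [norm_neg])
  have hsmall : ‖∑ R₁ ∈ S.powerset, (∑ R₀ ∈ (SP K P).powerset, (H33.HH.hk P k R₀ : ℂ) * X R₁ R₀ -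
      ∑ R₀ ∈ (SP K P).powerset, (H33.HH.hk P k R₀ : ℂ) * M R₁ R₀)‖ ≤
      n₀ * ((D * (1 + |u|)) * 2 ^ S.card * Q ^ (-δ₀) * (2 ^ S.card * nS np (S ∩ T))) := by
    refine (norm_sum_le _ _).trans ?_
    have c1 : ∀ R₁ ∈ S.powerset, ‖∑ R₀ ∈ (SP K P).powerset, (H33.HH.hk P k R₀ : ℂ) * X R₁ R₀ -
        ∑ R₀ ∈ (SP K P).powerset, (H33.HH.hk P k R₀ : ℂ) * M R₁ R₀‖ ≤
        n₀ * ((D * (1 + |u|)) * 2 ^ S.card * Q ^ (-δ₀)) * fS np (R₁ ∩ T) := by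
      intro R₁ hR₁
      rw [← Finset.sum_sub_distrib]
      refine (norm_sum_le _ _).trans ?_
      have c2 : ∀ R₀ ∈ (SP K P).powerset,
          ‖(H33.HH.hk P k R₀ : ℂ) * X R₁ R₀ - (H33.HH.hk P k R₀ : ℂ) * M R₁ R₀‖ ≤
            (D * (1 + |u|)) * 2 ^ S.card * Q ^ (-δ₀) * fS np (R₁ ∩ T) := by
        intro R₀ hR₀
        rw [← mul_sub, norm_mul, Complex.norm_real, Real.norm_eq_abs]
        calc |H33.HH.hk P k R₀| * ‖X R₁ R₀ - M R₁ R₀‖ ≤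
              1 * (D * (1 + |u|) * 2 ^ S.card * fS np (R₁ ∩ T) * Q ^ (-δ₀)) :=
              mul_le_mul (habs R₀ hR₀) (hkey R₁ hR₁ R₀ hR₀) (norm_nonneg _) zero_le_one
          _ = _ := by ring
      refine (Finset.sum_le_sum c2).trans (le_of_eq ?_)
      rw [Finset.sum_const, nsmul_eq_mul]
      ring
    refine (Finset.sum_le_sum c1).trans ?_
    rw [← Finset.mul_sum]
    have c3 := sum_err (N := (np : PrI K → ℝ)) (fun p => by linarith [two_le_np p]) S T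
    calc n₀ * ((D * (1 + |u|)) * 2 ^ S.card * Q ^ (-δ₀)) * ∑ R₁ ∈ S.powerset, fS np (R₁ ∩ T) ≤
          n₀ * ((D * (1 + |u|)) * 2 ^ S.card * Q ^ (-δ₀)) * (2 ^ S.card * nS np (S ∩ T)) :=
          mul_le_mul_of_nonneg_left c3 (by positivity)
      _ = _ := by ring
  have hd := hdv (idS S) hS3
  rw [hS6, hS5] at hd
  have hlast := err_sum (δ := δ₀ / 2) (n := n₀) (s := 2 ^ S.card) (st := nS np (S ∩ T))
    (A := 1 / 2 * rh K * W1 W * n₀ * (E₀ * E₀ * (D * (1 + |u|))) * C₃ ^ 2)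
    (x := E₀ * E₀ * ‖∑ R₁ ∈ S.powerset, (∑ R₀ ∈ (SP K P).powerset,
      (H33.HH.hk P k R₀ : ℂ) * X R₁ R₀ -
      ∑ R₀ ∈ (SP K P).powerset, (H33.HH.hk P k R₀ : ℂ) * M R₁ R₀)‖)
    hQ1.le rfl hδ₀p (by linarith : θ ≤ 1) hrh hW1.le
    (by positivity : 0 ≤ E₀ * E₀ * (D * (1 + |u|))) (by positivity) (by positivity) hd
    (by linarith) hS1 hS2 hT1 (nS_pos _).le rfl (by
      calc E₀ * E₀ * _ ≤ E₀ * E₀ * (n₀ * ((D * (1 + |u|)) * 2 ^ S.card * Q ^ (-δ₀) *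
            (2 ^ S.card * nS np (S ∩ T)))) := mul_le_mul_of_nonneg_left hsmall (by positivity)
        _ = _ := by ring)
  unfold Er
  have hS0 : 0 < nS np S := nS_pos S
  have hT0 : 0 < nS np T := nS_pos T
  calc _ ≤ 1 / 2 * rh K * W1 W * Q ^ 2 * ((1 / nS np S * E₀) * (1 / nS np T * E₀)) *
        ‖∑ R₁ ∈ S.powerset, (∑ R₀ ∈ (SP K P).powerset, (H33.HH.hk P k R₀ : ℂ) * X R₁ R₀ -
          ∑ R₀ ∈ (SP K P).powerset, (H33.HH.hk P k R₀ : ℂ) * M R₁ R₀)‖ := by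
        gcongr
    _ = 1 / 2 * rh K * W1 W * Q ^ 2 * (1 / (nS np S * nS np T)) * (E₀ * E₀ *
        ‖∑ R₁ ∈ S.powerset, (∑ R₀ ∈ (SP K P).powerset, (H33.HH.hk P k R₀ : ℂ) * X R₁ R₀ -
          ∑ R₀ ∈ (SP K P).powerset, (H33.HH.hk P k R₀ : ℂ) * M R₁ R₀)‖) := by
        field_simp
    _ ≤ _ := hlast
    _ = _ := by
        rw [Real.rpow_one]
        ring

end Pool.Agent.H62.HC
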