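import Pool.Agent.H33.HC.TB
import Pool.Agent.H10.HH.COM

/-!
# The sum over `n`, complex values (row COMC): tools
-/

set_option autoImplicit false

open NumberField Complex Filter Topology MeasureTheory
open scoped ContDiff nonZeroDivisors

namespace Pool.Agent.H62.HC

open Pool.Agent.H33.HC Pool.Agent.H33.HH Pool.Agent.H28.RC Pool.Agent.H37.CV Pool.Agent.H96.CV
  Pool.Agent.H10.HH

section powers

theorem cmul {x y : ℝ} (hx : 0 < x) (hy : 0 < y) (w : ℂ) :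
    ((x * y : ℝ) : ℂ) ^ w = (x : ℂ) ^ w * (y : ℂ) ^ w := by
  rw [Complex.ofReal_mul, Complex.mul_cpow_ofReal_nonneg hx.le hy.le]

theorem cadd {x : ℝ} (hx : 0 < x) (a b : ℂ) : (x : ℂ) ^ (a + b) = (x : ℂ) ^ a * (x : ℂ) ^ b :=
  Complex.cpow_add _ _ (by exact_mod_cast hx.ne')

theorem cne {x : ℝ} (hx : 0 < x) (a : ℂ) : (x : ℂ) ^ a ≠ 0 := by
  rw [Ne, Complex.cpow_eq_zero_iff]
  rintro ⟨h, -⟩
  exact hx.ne' (by exact_mod_cast h)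

theorem cneg {x : ℝ} (hx : 0 < x) (a : ℂ) : (x : ℂ) ^ (-a) * (x : ℂ) ^ a = 1 := by
  rw [← cadd hx, neg_add_cancel, Complex.cpow_zero]

theorem cdiv {x y : ℝ} (hx : 0 < x) (hy : 0 < y) (w : ℂ) :
    ((x / y : ℝ) : ℂ) ^ w = (x : ℂ) ^ w * (y : ℂ) ^ (-w) := by
  have h1 : (x : ℂ) ^ w = ((x / y : ℝ) : ℂ) ^ w * (y : ℂ) ^ w := by
    rw [← cmul (div_pos hx hy) hy, div_mul_cancel₀ _ hy.ne']
  rw [h1, mul_assoc, mul_comm ((y : ℂ) ^ w), cneg hy, mul_one]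

theorem cprod {ι : Type} (s : Finset ι) (f : ι → ℝ) (hf : ∀ i, 0 < f i) (w : ℂ) :
    ((∏ i ∈ s, f i : ℝ) : ℂ) ^ w = ∏ i ∈ s, ((f i : ℝ) : ℂ) ^ w := by
  classical
  induction s using Finset.induction_on with
  | empty => simp
  | insert a s ha ih =>
    rw [Finset.prod_insert ha, Finset.prod_insert ha, ← ih, cmul (hf a)]
    exact Finset.prod_pos fun i _ => hf i

theorem pow_bd {Q x m c v : ℝ} (hQ : 1 < Q) (hx1 : 1 ≤ x) (hx : x ≤ Q ^ m) (hm : 0 ≤ m)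
    (hv0 : 0 ≤ v) (hv : v ≤ c / Real.log Q) : x ^ v ≤ Real.exp (m * c) := by
  have hl : 0 < Real.log Q := Real.log_pos hQ
  have h1 : v * Real.log Q ≤ c := by rwa [le_div_iff₀ hl] at hv
  calc x ^ v ≤ (Q ^ m) ^ v := Real.rpow_le_rpow (by linarith) hx hv0
    _ = Real.exp (Real.log Q * (m * v)) := by
        rw [← Real.rpow_mul (by linarith), Real.rpow_def_of_pos (by linarith)]
    _ ≤ Real.exp (m * c) := by
        apply Real.exp_le_exp.2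
        nlinarith [mul_le_mul_of_nonneg_left h1 hm]

theorem norm_bd {Q x m c : ℝ} {w : ℂ} (hQ : 1 < Q) (hx1 : 1 ≤ x) (hx : x ≤ Q ^ m) (hm : 0 ≤ m)
    (hv : ‖w‖ ≤ c / Real.log Q) : ‖(x : ℂ) ^ w‖ ≤ Real.exp (m * c) := by
  rw [Complex.norm_cpow_eq_rpow_re_of_pos (by linarith)]
  calc x ^ w.re ≤ x ^ ‖w‖ :=
        Real.rpow_le_rpow_of_exponent_le hx1 ((le_abs_self _).trans (Complex.abs_re_le_norm w))
    _ ≤ _ := pow_bd hQ hx1 hx hm (norm_nonneg _) hv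

theorem norm_bd' {Q x m c : ℝ} {w : ℂ} (hQ : 1 < Q) (hx1 : 1 ≤ x) (hx : x ≤ Q ^ m) (hm : 0 ≤ m)
    (hv : ‖w‖ ≤ c / Real.log Q) : ‖(x : ℂ) ^ (w - 1)‖ ≤ 1 / x * Real.exp (m * c) := by
  have hx0 : 0 < x := by linarith
  rw [sub_eq_add_neg, cadd hx0, norm_mul, mul_comm]
  have h1 : ‖(x : ℂ) ^ (-1 : ℂ)‖ = 1 / x := by
    rw [Complex.norm_cpow_eq_rpow_re_of_pos hx0]
    simp [Real.rpow_neg_one]
  rw [h1]
  exact mul_le_mul_of_nonneg_left (norm_bd hQ hx1 hx hm hv) (by positivity)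

theorem real_b' {Q θ δ₀ w Ts : ℝ} (hQ : 1 ≤ Q) (hθ : θ ≤ 1) (hd1 : δ₀ ≤ (1 - θ) / 8)
    (hw1 : 1 ≤ w) (m4 : Q ^ (1 - θ) * w ≤ Ts) :
    w ≤ Ts ∧ (Ts / w) ^ (-(1 / 8) : ℝ) ≤ Q ^ (-δ₀) := by
  have hQ0 : 0 < Q := by linarith
  have hq0 : 0 < Q ^ (1 - θ) := Real.rpow_pos_of_pos hQ0 _
  have hq1 : 1 ≤ Q ^ (1 - θ) := Real.one_le_rpow hQ (by linarith)
  have hw0 : 0 < w := by linarith
  constructor
  · calc w = 1 * w := (one_mul w).symm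
      _ ≤ Q ^ (1 - θ) * w := mul_le_mul_of_nonneg_right hq1 hw0.le
      _ ≤ Ts := m4
  · have h1 : Q ^ (1 - θ) ≤ Ts / w := by
      rw [le_div_iff₀ hw0]
      exact m4
    calc (Ts / w) ^ (-(1 / 8) : ℝ) ≤ (Q ^ (1 - θ)) ^ (-(1 / 8) : ℝ) :=
          Real.rpow_le_rpow_of_nonpos hq0 h1 (by norm_num)
      _ = Q ^ ((1 - θ) * (-(1 / 8))) := (Real.rpow_mul hQ0.le _ _).symm
      _ ≤ Q ^ (-δ₀) := Real.rpow_le_rpow_of_exponent_le hQ (by linarith)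

theorem real_d' {Q e δ₀ c₀ T1 U : ℝ} (hQ : 1 ≤ Q) (hc : 0 ≤ c₀) (hT : 0 ≤ T1) (hU : 0 < U)
    (hd2 : δ₀ ≤ e / 8) (n3 : T1 ≤ c₀ * Q ^ (-e) * U) :
    (T1 / U) ^ (1 / 8 : ℝ) ≤ c₀ ^ (1 / 8 : ℝ) * Q ^ (-δ₀) := by
  have hQ0 : 0 < Q := by linarith
  have h1 : T1 / U ≤ c₀ * Q ^ (-e) := by
    rw [div_le_iff₀ hU]
    exact n3
  calc (T1 / U) ^ (1 / 8 : ℝ) ≤ (c₀ * Q ^ (-e)) ^ (1 / 8 : ℝ) :=
        Real.rpow_le_rpow (by positivity) h1 (by norm_num)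
    _ = c₀ ^ (1 / 8 : ℝ) * Q ^ (-e * (1 / 8)) := by
        rw [Real.mul_rpow hc (by positivity), ← Real.rpow_mul hQ0.le]
    _ ≤ c₀ ^ (1 / 8 : ℝ) * Q ^ (-δ₀) := by
        refine mul_le_mul_of_nonneg_left ?_ (by positivity)
        exact Real.rpow_le_rpow_of_exponent_le hQ (by linarith)

/-- the last step of the first case -/
theorem real_f' {X Y Y' t : ℂ} {rr fv E1 C2 c4 q Et : ℝ} (hrr : 0 ≤ rr) (hf : 0 ≤ fv)
    (ht : ‖t‖ ≤ Et) {zz : ℂ} (hC : 0 ≤ C2 * (c4 * q))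
    (h1 : ‖X - (fv : ℂ) * (zz - (rr : ℂ) * t * Y)‖ ≤ E1) (h2 : ‖Y - Y'‖ ≤ C2 * (c4 * q)) :
    ‖X - (fv : ℂ) * (zz - t * ((rr : ℂ) * Y'))‖ ≤ E1 + rr * Et * (C2 * c4) * fv * q := by
  have h3 : X - (fv : ℂ) * (zz - t * ((rr : ℂ) * Y')) =
      (X - (fv : ℂ) * (zz - (rr : ℂ) * t * Y)) - (fv : ℂ) * ((rr : ℂ) * (t * (Y - Y'))) := by
    ring
  rw [h3]
  refine (norm_sub_le _ _).trans (add_le_add h1 ?_)
  rw [norm_mul, norm_mul, norm_mul, Complex.norm_real, Complex.norm_real, Real.norm_eq_abs,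
    Real.norm_eq_abs, abs_of_nonneg hf, abs_of_nonneg hrr]
  have hEt : 0 ≤ Et := (norm_nonneg t).trans ht
  calc fv * (rr * (‖t‖ * ‖Y - Y'‖)) ≤ fv * (rr * (Et * (C2 * (c4 * q)))) := by gcongr
    _ = _ := by ring

end powers

section comb

variable {α : Type} [DecidableEq α]

theorem sum_splitC (S T : Finset α) (h : Finset α → Finset α → ℂ) :
    ∑ R ∈ S.powerset, h (R ∩ T) (R \ T) =
      ∑ E ∈ (S ∩ T).powerset, ∑ D ∈ (S \ T).powerset, h E D := by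
  rw [← Finset.sum_product']
  refine Finset.sum_nbij' (fun R => (R ∩ T, R \ T)) (fun q => q.1 ∪ q.2) ?_ ?_ ?_ ?_ ?_
  · intro R hR
    rw [Finset.mem_powerset] at hR
    rw [Finset.mem_product, Finset.mem_powerset, Finset.mem_powerset]
    exact ⟨Finset.inter_subset_inter_right hR, Finset.sdiff_subset_sdiff hR subset_rfl⟩
  · intro q hq
    rw [Finset.mem_product, Finset.mem_powerset, Finset.mem_powerset] at hq
    rw [Finset.mem_powerset]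
    exact Finset.union_subset (hq.1.trans Finset.inter_subset_left)
      (hq.2.trans Finset.sdiff_subset)
  · intro R hR
    ext x
    simp only [Finset.mem_union, Finset.mem_inter, Finset.mem_sdiff]
    tauto
  · intro q hq
    rw [Finset.mem_product, Finset.mem_powerset, Finset.mem_powerset] at hq
    have e1 : ∀ x, x ∈ q.1 → x ∈ T := fun x hx => (Finset.mem_inter.1 (hq.1 hx)).2
    have e2 : ∀ x, x ∈ q.2 → x ∉ T := fun x hx => (Finset.mem_sdiff.1 (hq.2 hx)).2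
    refine Prod.ext ?_ ?_
    · ext x
      simp only [Finset.mem_union, Finset.mem_inter]
      constructor
      · rintro ⟨h1 | h1, h2⟩
        · exact h1
        · exact absurd h2 (e2 x h1)
      · exact fun h1 => ⟨Or.inl h1, e1 x h1⟩
    · ext x
      simp only [Finset.mem_union, Finset.mem_sdiff]
      constructor
      · rintro ⟨h1 | h1, h2⟩
        · exact absurd (e1 x h1) h2
        · exact h1
      · exact fun h1 => ⟨Or.inr h1, e2 x h1⟩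
  · intro R hR
    rfl

/-- the first sum -/
theorem sum_one (N : α → ℝ) (x : α → ℂ) (S T : Finset α) :
    ∑ R ∈ S.powerset, ((fS N (R ∩ T) : ℝ) : ℂ) * ∏ p ∈ R \ T, (x p - 1) =
      ((nS N (S ∩ T) : ℝ) : ℂ) * ∏ p ∈ S \ T, x p := by
  have h1 := sum_splitC S T (fun E D => ((fS N E : ℝ) : ℂ) * ∏ p ∈ D, (x p - 1))
  refine h1.trans ?_
  have h2 : ∏ p ∈ S \ T, x p = ∑ D ∈ (S \ T).powerset, ∏ p ∈ D, (x p - 1) := by
    rw [← Finset.prod_one_add]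
    exact Finset.prod_congr rfl fun p _ => by ring
  rw [h2, ← sum_fS N (S ∩ T)]
  push_cast
  rw [Finset.sum_mul_sum]

/-- the second sum -/
theorem sum_two (S T : Finset α) (F : Finset α → ℂ) :
    ∑ R ∈ S.powerset, (if R ⊆ T then F R else 0) = ∑ E ∈ (S ∩ T).powerset, F E := by
  rw [← Finset.sum_filter]
  apply Finset.sum_congr _ fun _ _ => rfl
  ext R
  rw [Finset.mem_filter, Finset.mem_powerset, Finset.mem_powerset, Finset.subset_inter_iff]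

end comb

section sums

variable {K : Type} [Field K] [NumberField K]

theorem sumZ_fin (P Z : ℝ) : ∃ s : Finset (NI K), ∀ f : Ideal (𝓞 K) → ℂ,
    (∀ n, n ≠ ⊥ → Z < nm n → f n = 0) →
    sumZ P f = ∑ I ∈ s, open scoped Classical in if Cp P I.1 then f I.1 else 0 := by
  classical
  have hfin : {I : NI K | nm I.1 ≤ Z}.Finite := by
    have h1 : {I : Ideal (𝓞 K) | Ideal.absNorm I ∈ Set.Iic ⌊Z⌋₊}.Finite :=
      Ideal.finite_setOf_absNorm_le ⌊Z⌋₊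
    refine Set.Finite.preimage (Subtype.val_injective.injOn) h1 |>.subset ?_
    intro I hI
    exact Nat.le_floor hI
  refine ⟨hfin.toFinset, fun f hf => ?_⟩
  unfold sumZ
  refine tsum_eq_sum fun I hI => ?_
  have h2 : Z < nm I.1 := by
    by_contra hc
    exact hI (hfin.mem_toFinset.2 (not_lt.1 hc))
  rw [hf I.1 I.2 h2, ite_self]

theorem sumZ_sum {ι : Type} (P Z : ℝ) (s : Finset ι) (f : ι → Ideal (𝓞 K) → ℂ)
    (hf : ∀ i ∈ s, ∀ n, n ≠ ⊥ → Z < nm n → f i n = 0) :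
    sumZ P (fun n => ∑ i ∈ s, f i n) = ∑ i ∈ s, sumZ P (f i) := by
  classical
  obtain ⟨t, ht⟩ := sumZ_fin (K := K) P Z
  rw [ht _ (fun n hn hZ => Finset.sum_eq_zero fun i hi => hf i hi n hn hZ),
    Finset.sum_congr rfl fun i hi => ht (f i) (hf i hi), Finset.sum_comm]
  refine Finset.sum_congr rfl fun I _ => ?_
  by_cases h : Cp P I.1
  · simp only [if_pos h]
  · simp only [if_neg h, Finset.sum_const_zero]

theorem sumZ_mul (P : ℝ) (c : ℂ) (f : Ideal (𝓞 K) → ℂ) :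
    sumZ P (fun n => c * f n) = c * sumZ P f := by
  classical
  unfold sumZ
  rw [← tsum_mul_left]
  refine tsum_congr fun I => ?_
  by_cases h : Cp P I.1
  · simp only [if_pos h]
  · simp only [if_neg h, mul_zero]

end sums

section key

variable {K : Type} [Field K] [NumberField K]

/-- the three factors -/
theorem sl3C (h3 : T_SPC) (h4 : T_SSC) {f g1 g2 f' g1' g2' : ℝ → ℂ} {a A₂ B κ r Q T0 S0 Z : ℝ}
    (ha : 0 ≤ a) (hA₂ : 0 ≤ A₂) (hB : B = 2 * (1 + A₂) * (1 + A₂))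
    (hf : SlC 1 a f f') (hg1 : SlC 1 A₂ g1 g1') (hg2 : SlC 1 A₂ g2 g2')
    (h1 : 0 < κ * r * Q) (hT : 0 < T0) (hS : 0 < S0) (hZ : 0 < Z) :
    ∃ f₁' f₂' f₃' : ℝ → ℂ,
      SlC (κ * r * Q / T0) a (fun t => f (T0 / (κ * r * Q) * t)) f₁' ∧
      SlC (min Z (S0 * Z / T0)) B (fun t => g2 (Z⁻¹ * t) * g1 (T0 / (S0 * Z) * t)) f₂' ∧
      SlC (min (κ * r * Q / T0) (min Z (S0 * Z / T0))) (2 * (1 + a) * (1 + B))
        (fun t => f (T0 / (κ * r * Q) * t) * (g2 (Z⁻¹ * t) * g1 (T0 / (S0 * Z) * t))) f₃' := by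
  have hg1' : 0 < T0 / (κ * r * Q) := by positivity
  have hg3 : 0 < T0 / (S0 * Z) := by positivity
  have e1 := h4 _ _ 1 a _ one_pos hg1' ha hf
  rw [one_div_div] at e1
  have e2 := h4 _ _ 1 A₂ _ one_pos (inv_pos.2 hZ) hA₂ hg2
  rw [one_div, inv_inv] at e2
  have e3 := h4 _ _ 1 A₂ _ one_pos hg3 hA₂ hg1
  rw [one_div_div] at e3
  have e23 := h3 _ _ _ _ Z (S0 * Z / T0) A₂ A₂ hZ (by positivity) hA₂ hA₂ e2 e3
  rw [← hB] at e23
  have hB0 : 0 ≤ B := by rw [hB]; positivity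
  have e123 := h3 _ _ _ _ (κ * r * Q / T0) (min Z (S0 * Z / T0)) a B (by positivity)
    (lt_min hZ (by positivity)) ha hB0 e1 e23
  exact ⟨_, _, _, e1, e23, e123⟩

open scoped Classical in
theorem keyC [IQ K] (h3 : T_SPC) (h4 : T_SSC) (h8 : T_IDF) (P : ℝ) (k : Ideal (𝓞 K)) (hk : k ≠ ⊥)
    (θ e : ℝ) (hpar : Par θ e) (a A₂ B C₁ C₂ rr cc : ℝ) (ps g1 g2 ps' g1' g2' : ℝ → ℂ) (w : ℂ)
    (hw0 : w ≠ 0) (hw : ‖w‖ ≤ 1 / 16) (ha0 : 0 ≤ a) (hA₂ : 0 ≤ A₂)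
    (hB : B = 2 * (1 + A₂) * (1 + A₂)) (hC₁ : 0 ≤ C₁) (hC₂ : 0 ≤ C₂) (hrr : 0 ≤ rr)
    (hps : SlC 1 a ps ps') (hG1 : SlC 1 A₂ g1 g1') (hG2 : SlC 1 A₂ g2 g2') (zc : ℂ)
    (hco : ∀ (f f' : ℝ → ℂ) (T A y : ℝ) (w : ℂ), 0 ≤ A → 1 ≤ y → SlC T A f f' → w ≠ 0 →
      ‖w‖ ≤ 1 / 16 → ∀ S ∈ DP K P y, ∀ S' ∈ DP K P y, ∀ R ∈ S.powerset, nS np (R \ S') ≤ T →
      ‖sumZ (K := K) P (fun n => ((ha R (idS S' * n) : ℝ) : ℂ) *
          (((nm n : ℝ) : ℂ) ^ (-1 - w) * f (nm n))) -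
        ((fS np (R ∩ S') : ℝ) : ℂ) * (Zc K P w * ∏ p ∈ R \ S', (((np p : ℝ) : ℂ) ^ (-w) - 1) -
          (if R ⊆ S' then (rk K P : ℂ) * (T : ℂ) ^ (-w) *
            (1 / w - Lw w (fun v => f (T * v))) else 0))‖ ≤
        C₁ * (1 + A) * 2 ^ R.card * fS np (R ∩ S') * nS np (R \ S') ^ ‖w‖ *
          (T / nS np (R \ S')) ^ (-(1 / 8) : ℝ))
    (hzc : zc = Zc K P w) (hrk : rr = rk K P)
    (hlg : ∀ (f f' g g' : ℝ → ℂ) (T U A B : ℝ) (w : ℂ), 0 < T →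
      T ≤ U → 0 ≤ A → 0 ≤ B → SlC T A f f' → SlC U B g g' → ‖w‖ ≤ 1 / 16 →
      ‖Lw w (fun v => f (T * v) * g (T * v)) - Lw w (fun v => f (T * v))‖ ≤
        C₂ * (1 + A) * (1 + B) * (T / U) ^ (1 / 8 : ℝ))
    (Q δ₀ c₀ : ℝ) (hQ : 1 < Q) (hc₀ : c₀ = nm k * nS np (SP K P)) (hQc : c₀ * Q ^ (-e) ≤ 1)
    (hwc : ‖w‖ ≤ cc / Real.log Q)
    (hd1 : δ₀ ≤ (1 - θ) / 8) (hd2 : δ₀ ≤ e / 8)
    (S : Finset (PrI K)) (hS : S ∈ DP K P (Q ^ θ)) (T : Finset (PrI K))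
    (hT : T ∈ DP K P (Q ^ θ)) (R₁ : Finset (PrI K)) (hR₁ : R₁ ∈ S.powerset)
    (R₀ : Finset (PrI K)) (hR₀ : R₀ ∈ (SP K P).powerset) :
    ‖sumZ (K := K) P (fun n => ((ha R₁ (idS T * n) : ℝ) : ℂ) * (((nm n : ℝ) : ℂ) ^ (-1 - w) *
        (ps (nS np T / (nm k * (nS np R₁ * nS np R₀) * Q) * nm n) *
          (g2 ((Q ^ (1 + e))⁻¹ * nm n) * g1 (nS np T / (nS np S * Q ^ (1 + e)) * nm n))))) -
      ((fS np (R₁ ∩ T) : ℝ) : ℂ) * (zc * ∏ p ∈ R₁ \ T, (((np p : ℝ) : ℂ) ^ (-w) - 1) -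
        (if R₁ ⊆ T then (((nm k * (nS np R₁ * nS np R₀) * Q / nS np T : ℝ)) : ℂ) ^ (-w) *
          ((rr : ℂ) * (1 / w - Lw w ps)) else 0))‖ ≤
      (C₁ * (1 + 2 * (1 + a) * (1 + B)) * Real.exp (1 * cc) +
        rr * Real.exp ((1 + e) * cc) * (C₂ * (1 + a) * (1 + B) * c₀ ^ (1 / 8 : ℝ))) *
        2 ^ S.card * fS np (R₁ ∩ T) * Q ^ (-δ₀) := by
  obtain ⟨hθ, he, hle⟩ := hpar
  have hQ1 : 1 ≤ Q := hQ.le
  have hQ0 : 0 < Q := by linarith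
  have hy : 1 ≤ Q ^ θ := Real.one_le_rpow hQ1 hθ.le
  obtain ⟨-, -, -, hS1, hS2, -⟩ := h8 K P (Q ^ θ) hy S hS
  obtain ⟨-, -, -, hT1, hT2, -⟩ := h8 K P (Q ^ θ) hy T hT
  have hk1 : 1 ≤ nm k := one_le_nm hk
  have hR1S : R₁ ⊆ S := Finset.mem_powerset.1 hR₁
  have hR0S : R₀ ⊆ SP K P := Finset.mem_powerset.1 hR₀
  have hZ0 : 0 < Q ^ (1 + e) := Real.rpow_pos_of_pos hQ0 _
  have hr1 : 1 ≤ nS np R₁ := one_le_nS _
  have hr0 : 1 ≤ nS np R₀ := one_le_nS _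
  have hr1S : nS np R₁ ≤ nS np S := nS_mono hR1S
  have hr0c : nm k * nS np R₀ ≤ c₀ := by
    rw [hc₀]
    exact mul_le_mul_of_nonneg_left (nS_mono hR0S) (by linarith)
  have hc₀p : 0 < c₀ := lt_of_lt_of_le (by positivity) hr0c
  have hw1 : 1 ≤ nS np (R₁ \ T) := one_le_nS _
  have hv1 : 1 ≤ nS np (R₁ ∩ T) := one_le_nS _
  have hr1w : nS np R₁ = nS np (R₁ ∩ T) * nS np (R₁ \ T) := nS_split np R₁ T
  have hwS : nS np (R₁ \ T) ≤ nS np S := nS_mono (Finset.sdiff_subset.trans hR1S)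
  have hB0 : 0 ≤ B := by rw [hB]; positivity
  have hf0 := fS_nonneg (R₁ ∩ T)
  have hp1 : 0 < nm k * (nS np R₁ * nS np R₀) * Q := by positivity
  obtain ⟨f₁', f₂', f₃', e1, e23, e123⟩ := sl3C (T0 := nS np T) (S0 := nS np S)
    (Z := Q ^ (1 + e)) h3 h4 ha0 hA₂ hB hps hG1 hG2 hp1 (by linarith) (by linarith) hZ0
  have m4 := real_a (κ := nm k) (r0 := nS np R₀) hQ1 he hk1 hr0 hS1 hT1 hS2 hT2 hw1 hv1 hr1w hwS
  obtain ⟨m5, m6⟩ := real_b' hQ1 (by linarith) hd1 hw1 m4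
  have hA0 : 0 ≤ 2 * (1 + a) * (1 + B) := by positivity
  have main := hco _ _ _ (2 * (1 + a) * (1 + B)) (Q ^ θ) w hA0 hy e123 hw0 hw S hS T hT R₁ hR₁ m5
  rw [← hzc, ← hrk] at main
  have hQd : 0 < Q ^ (-δ₀) := Real.rpow_pos_of_pos hQ0 _
  have hcard : (2 : ℝ) ^ R₁.card ≤ 2 ^ S.card :=
    pow_le_pow_right₀ (by norm_num) (Finset.card_le_card hR1S)
  have hcard1 : (1 : ℝ) ≤ 2 ^ S.card := one_le_pow₀ (by norm_num)
  have hwQ : nS np (R₁ \ T) ≤ Q ^ (1 : ℝ) :=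
    hwS.trans (hS2.trans (Real.rpow_le_rpow_of_exponent_le hQ1 (by linarith)))
  have hpw : nS np (R₁ \ T) ^ ‖w‖ ≤ Real.exp (1 * cc) :=
    pow_bd hQ hw1 hwQ zero_le_one (norm_nonneg _) hwc
  have main2 : _ ≤ C₁ * (1 + 2 * (1 + a) * (1 + B)) * 2 ^ S.card * fS np (R₁ ∩ T) *
      Real.exp (1 * cc) * Q ^ (-δ₀) := main.trans (by gcongr)
  have hc4 : 0 ≤ c₀ ^ (1 / 8 : ℝ) := by positivity
  by_cases hsub : R₁ ⊆ T
  · -- the first case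
    have hint : R₁ ∩ T = R₁ := Finset.inter_eq_left.2 hsub
    rw [if_pos hsub] at main2
    rw [if_pos hsub]
    have hr1T : nS np R₁ ≤ nS np T := nS_mono hsub
    have n3 := real_c (e := e) hQ1 hk1 hr0 hr1 hS1 hT1 hr0c hr1T hr1S
    have hU0 : 0 < min (Q ^ (1 + e)) (nS np S * Q ^ (1 + e) / nS np T) :=
      lt_min hZ0 (by positivity)
    have n4 := n3.trans (mul_le_mul_of_nonneg_right hQc hU0.le)
    rw [one_mul] at n4
    have hT1p : 0 < nm k * (nS np R₁ * nS np R₀) * Q / nS np T := by positivity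
    have n6 := real_d' hQ1 hc₀p.le hT1p.le hU0 hd2 n3
    have n7 := (hlg _ _ _ _ _ _ _ _ w hT1p n4 ha0 hB0 e1 e23 hw).trans
      (mul_le_mul_of_nonneg_left n6 (by positivity))
    rw [min_eq_left n4] at main2
    have n8 : (fun v => ps (nS np T / (nm k * (nS np R₁ * nS np R₀) * Q) *
        (nm k * (nS np R₁ * nS np R₀) * Q / nS np T * v))) = ps := by
      funext u
      refine congrArg _ ?_
      field_simp
    rw [n8] at n7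
    -- the power
    have p1 : 1 ≤ nm k * (nS np R₁ * nS np R₀) * Q / nS np T := by
      have q1 : 1 ≤ Q ^ (1 - θ) := Real.one_le_rpow hQ1 (by linarith)
      have q2 : 1 ≤ Q ^ (1 - θ) * nS np (R₁ \ T) := by nlinarith
      exact q2.trans (m4.trans (min_le_left _ _))
    have p2 : nm k * (nS np R₁ * nS np R₀) * Q / nS np T ≤ Q ^ (1 + e) :=
      n4.trans (min_le_left _ _)
    have p3 : ‖(((nm k * (nS np R₁ * nS np R₀) * Q / nS np T : ℝ)) : ℂ) ^ (-w)‖ ≤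
        Real.exp ((1 + e) * cc) := norm_bd hQ p1 p2 (by linarith) (by rwa [norm_neg])
    have n9 := real_f' (C2 := C₂ * (1 + a) * (1 + B)) (c4 := c₀ ^ (1 / 8 : ℝ))
      (q := Q ^ (-δ₀)) (Y' := 1 / w - Lw w ps) hrr hf0 p3 (by positivity) main2 (by
        rw [sub_sub_sub_cancel_left, norm_sub_rev]
        exact n7)
    refine n9.trans ?_
    have h1 : 0 ≤ rr * Real.exp ((1 + e) * cc) * (C₂ * (1 + a) * (1 + B) * c₀ ^ (1 / 8 : ℝ)) *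
      fS np (R₁ ∩ T) * Q ^ (-δ₀) := by positivity
    calc _ ≤ C₁ * (1 + 2 * (1 + a) * (1 + B)) * 2 ^ S.card * fS np (R₁ ∩ T) *
          Real.exp (1 * cc) * Q ^ (-δ₀) + 2 ^ S.card * (rr * Real.exp ((1 + e) * cc) *
            (C₂ * (1 + a) * (1 + B) * c₀ ^ (1 / 8 : ℝ)) * fS np (R₁ ∩ T) * Q ^ (-δ₀)) := by
          refine add_le_add le_rfl ?_
          exact le_mul_of_one_le_left h1 hcard1
      _ = _ := by ring
  · rw [if_neg hsub] at main2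
    rw [if_neg hsub]
    refine main2.trans ?_
    have h2 : 0 ≤ rr * Real.exp ((1 + e) * cc) * (C₂ * (1 + a) * (1 + B) * c₀ ^ (1 / 8 : ℝ)) *
        2 ^ S.card * fS np (R₁ ∩ T) * Q ^ (-δ₀) := by
      positivity
    calc _ ≤ C₁ * (1 + 2 * (1 + a) * (1 + B)) * 2 ^ S.card * fS np (R₁ ∩ T) *
          Real.exp (1 * cc) * Q ^ (-δ₀) + rr * Real.exp ((1 + e) * cc) *
            (C₂ * (1 + a) * (1 + B) * c₀ ^ (1 / 8 : ℝ)) * 2 ^ S.card * fS np (R₁ ∩ T) *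
              Q ^ (-δ₀) :=
          le_add_of_nonneg_right h2
      _ = _ := by ring

end key

end Pool.Agent.H62.HC
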