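import Pool.Agent.H62.HC.COMCa

/-!
# The sum over `n`, complex values (row COMC): identities
-/

set_option autoImplicit false

open NumberField Complex Filter Topology MeasureTheory
open scoped ContDiff nonZeroDivisors

namespace Pool.Agent.H62.HC

open Pool.Agent.H33.HC Pool.Agent.H33.HH Pool.Agent.H28.RC Pool.Agent.H37.CV Pool.Agent.H96.CV
  Pool.Agent.H10.HH

section main

variable {K : Type} [Field K] [NumberField K]

theorem gsc6 {G : ℝ → ℝ} (hG : IsG G) (s : ℂ) (_ : Nr s) : ∀ v, 6 ≤ v → Gs G s v = 0 := by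
  intro v hv
  unfold Gs
  rw [hG.high v (by linarith), hG.high (v / 2) (by linarith)]
  simp

open scoped Classical in
/-- exchange of the sums -/
theorem exch [IQ K] (P Q e : ℝ) (hQ : 0 < Q) (W H g1 g2 : ℝ → ℝ) (G : ℝ → ℝ) (k : Ideal (𝓞 K))
    (S T : Finset (PrI K)) (hT5 : nm (idS T) = nS np T) (α β : ℂ) (u : ℝ)
    (hG6 : ∀ v, 6 ≤ v → Gs G (se β (-u)) v = 0) :
    Ea2 P (Q ^ (1 + e)) Q W G H k S (idS T) α β u =
      ((1 / 2 * rh K * W1 W * Q ^ 2 : ℝ) : ℂ) *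
        (((nS np S : ℝ) : ℂ) ^ (α - 1) * ((nS np T : ℝ) : ℂ) ^ (-1 - α)) *
        ∑ R₁ ∈ S.powerset, ∑ R₀ ∈ (SP K P).powerset, (H33.HH.hk P k R₀ : ℂ) *
          sumZ (K := K) P (fun n => ((ha R₁ (idS T * n) : ℝ) : ℂ) *
            (((nm n : ℝ) : ℂ) ^ (-1 - (α + β)) *
            (psc K W H (se α u) (nS np T / (nm k * (nS np R₁ * nS np R₀) * Q) * nm n) *
              (Gs G (se β (-u)) ((Q ^ (1 + e))⁻¹ * nm n) *
                Gs G (se α u) (nS np T / (nS np S * Q ^ (1 + e)) * nm n))))) := by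
  have hZ0 : 0 < Q ^ (1 + e) := Real.rpow_pos_of_pos hQ _
  unfold Ea2
  rw [hT5]
  congr 1
  have e1 : (fun n : Ideal (𝓞 K) => ((nm n : ℝ) : ℂ) ^ (-1 - (α + β)) *
      (Gs G (se β (-u)) (nm n / Q ^ (1 + e)) *
        Gs G (se α u) (nS np T * nm n / (nS np S * Q ^ (1 + e)))) *
      ∑ R₁ ∈ S.powerset, ∑ R₀ ∈ (SP K P).powerset,
        ((ha R₁ (idS T * n) * H33.HH.hk P k R₀ : ℝ) : ℂ) *
        psc K W H (se α u) (nS np T * nm n / (nm k * (nS np R₁ * nS np R₀) * Q))) =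
      fun n => ∑ q ∈ S.powerset ×ˢ (SP K P).powerset, (H33.HH.hk P k q.2 : ℂ) *
        (((ha q.1 (idS T * n) : ℝ) : ℂ) * (((nm n : ℝ) : ℂ) ^ (-1 - (α + β)) *
          (psc K W H (se α u) (nS np T / (nm k * (nS np q.1 * nS np q.2) * Q) * nm n) *
            (Gs G (se β (-u)) ((Q ^ (1 + e))⁻¹ * nm n) *
              Gs G (se α u) (nS np T / (nS np S * Q ^ (1 + e)) * nm n))))) := by
    funext n
    rw [Finset.sum_product, Finset.mul_sum]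
    refine Finset.sum_congr rfl fun R₁ _ => ?_
    rw [Finset.mul_sum]
    refine Finset.sum_congr rfl fun R₀ _ => ?_
    have a1 : nm n / Q ^ (1 + e) = (Q ^ (1 + e))⁻¹ * nm n := by ring
    have a2 : nS np T * nm n / (nS np S * Q ^ (1 + e)) =
        nS np T / (nS np S * Q ^ (1 + e)) * nm n := by ring
    have a3 : nS np T * nm n / (nm k * (nS np R₁ * nS np R₀) * Q) =
        nS np T / (nm k * (nS np R₁ * nS np R₀) * Q) * nm n := by ring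
    rw [a1, a2, a3]
    push_cast
    ring
  rw [e1, sumZ_sum P (6 * Q ^ (1 + e))]
  · rw [Finset.sum_product]
    refine Finset.sum_congr rfl fun R₁ _ => Finset.sum_congr rfl fun R₀ _ => ?_
    exact sumZ_mul P _ _
  · intro q _ n _ hn
    have : Gs G (se β (-u)) ((Q ^ (1 + e))⁻¹ * nm n) = 0 := by
      refine hG6 _ ?_
      rw [← div_eq_inv_mul, le_div_iff₀ hZ0]
      exact hn.le
    rw [this]
    ring

open scoped Classical in
/-- the sum of the main terms -/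
theorem main_eq [IQ K] (P Q : ℝ) (hQ : 0 < Q) (k : Ideal (𝓞 K)) (hk : k ≠ ⊥)
    (S T : Finset (PrI K)) (α β zc yc : ℂ) (φ : ℝ)
    (hφ : ∑ R₀ ∈ (SP K P).powerset, H33.HH.hk P k R₀ = φ) :
    (((nS np S : ℝ) : ℂ) ^ (α - 1) * ((nS np T : ℝ) : ℂ) ^ (-1 - α)) *
      ∑ R₁ ∈ S.powerset, ∑ R₀ ∈ (SP K P).powerset, (H33.HH.hk P k R₀ : ℂ) *
        (((fS np (R₁ ∩ T) : ℝ) : ℂ) * (zc * ∏ p ∈ R₁ \ T, (((np p : ℝ) : ℂ) ^ (-(α + β)) - 1) -
        (if R₁ ⊆ T then (((nm k * (nS np R₁ * nS np R₀) * Q / nS np T : ℝ)) : ℂ) ^ (-(α + β)) *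
          yc else 0))) =
      (φ : ℂ) * zc * U1 α β S T - ck P k (α + β) * ((nm k * Q : ℝ) : ℂ) ^ (-(α + β)) * yc *
        U2 α β S T := by
  have hS0 : 0 < nS np S := nS_pos S
  have hT0 : 0 < nS np T := nS_pos T
  have hI0 : 0 < nS np (S ∩ T) := nS_pos _
  have hD0 : 0 < nS np (S \ T) := nS_pos _
  have hk0 : 0 < nm k := lt_of_lt_of_le one_pos (one_le_nm hk)
  -- separation of the two parts
  have h1 : ∑ R₁ ∈ S.powerset, ∑ R₀ ∈ (SP K P).powerset, (H33.HH.hk P k R₀ : ℂ) *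
        (((fS np (R₁ ∩ T) : ℝ) : ℂ) * (zc * ∏ p ∈ R₁ \ T, (((np p : ℝ) : ℂ) ^ (-(α + β)) - 1) -
        (if R₁ ⊆ T then (((nm k * (nS np R₁ * nS np R₀) * Q / nS np T : ℝ)) : ℂ) ^ (-(α + β)) *
          yc else 0))) =
      (φ : ℂ) * zc * (∑ R₁ ∈ S.powerset, ((fS np (R₁ ∩ T) : ℝ) : ℂ) *
        ∏ p ∈ R₁ \ T, (((np p : ℝ) : ℂ) ^ (-(α + β)) - 1)) -
      ∑ R₁ ∈ S.powerset, (if R₁ ⊆ T then ((fS np R₁ : ℝ) : ℂ) *
        (((nS np R₁ : ℝ) : ℂ) ^ (-(α + β)) * (ck P k (α + β) *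
          ((nm k * Q : ℝ) : ℂ) ^ (-(α + β)) * ((nS np T : ℝ) : ℂ) ^ (α + β) * yc)) else 0) := by
    rw [Finset.mul_sum, ← Finset.sum_sub_distrib]
    refine Finset.sum_congr rfl fun R₁ _ => ?_
    have hR1 : 0 < nS np R₁ := nS_pos R₁
    by_cases hsub : R₁ ⊆ T
    · have hint : R₁ ∩ T = R₁ := Finset.inter_eq_left.2 hsub
      simp only [if_pos hsub]
      rw [hint, ← hφ]
      unfold ck
      push_cast
      have h2 : ∀ R₀ ∈ (SP K P).powerset, (H33.HH.hk P k R₀ : ℂ) *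
          (((fS np R₁ : ℝ) : ℂ) * (zc * ∏ p ∈ R₁ \ T, (((np p : ℝ) : ℂ) ^ (-(α + β)) - 1) -
          ((nm k : ℂ) * ((nS np R₁ : ℂ) * (nS np R₀ : ℂ)) * (Q : ℂ) / (nS np T : ℂ)) ^ (-(α + β)) *
            yc)) =
          (H33.HH.hk P k R₀ : ℂ) * (zc * (((fS np R₁ : ℝ) : ℂ) *
            ∏ p ∈ R₁ \ T, (((np p : ℝ) : ℂ) ^ (-(α + β)) - 1))) -
          ((H33.HH.hk P k R₀ : ℂ) * ((nS np R₀ : ℝ) : ℂ) ^ (-(α + β))) *
            (((fS np R₁ : ℝ) : ℂ) * (((nS np R₁ : ℝ) : ℂ) ^ (-(α + β)) *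
            (((nm k : ℂ) * (Q : ℂ)) ^ (-(α + β)) * ((nS np T : ℝ) : ℂ) ^ (α + β) * yc))) := by
        intro R₀ _
        have hR0 : 0 < nS np R₀ := nS_pos R₀
        have h3 : ((nm k : ℂ) * ((nS np R₁ : ℂ) * (nS np R₀ : ℂ)) * (Q : ℂ) / (nS np T : ℂ)) ^
            (-(α + β)) = ((nm k : ℂ) * (Q : ℂ)) ^ (-(α + β)) *
              (((nS np R₁ : ℝ) : ℂ) ^ (-(α + β)) * ((nS np R₀ : ℝ) : ℂ) ^ (-(α + β))) *
              ((nS np T : ℝ) : ℂ) ^ (α + β) := by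
          have h4 : (nm k : ℂ) * ((nS np R₁ : ℂ) * (nS np R₀ : ℂ)) * (Q : ℂ) / (nS np T : ℂ) =
              ((nm k * Q * (nS np R₁ * nS np R₀) / nS np T : ℝ) : ℂ) := by
            push_cast
            ring
          rw [h4, cdiv (by positivity) hT0, cmul (by positivity) (by positivity), cmul hR1 hR0,
            neg_neg]
          push_cast
          ring
        rw [h3]
        ring
      rw [Finset.sum_congr rfl h2, Finset.sum_sub_distrib, ← Finset.sum_mul, ← Finset.sum_mul]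
      ring
    · simp only [if_neg hsub, sub_zero]
      rw [← Finset.sum_mul, ← hφ]
      push_cast
      ring
  rw [h1, sum_one (np : PrI K → ℝ) (fun p => ((np p : ℝ) : ℂ) ^ (-(α + β))) S T, sum_two]
  -- the powers
  have h5 : ∏ p ∈ S \ T, ((np p : ℝ) : ℂ) ^ (-(α + β)) =
      ((nS np S : ℝ) : ℂ) ^ (-(α + β)) * ((nS np (S ∩ T) : ℝ) : ℂ) ^ (α + β) := by
    rw [← cprod _ _ np_pos]
    have h6 : nS np S / nS np (S ∩ T) = ∏ p ∈ S \ T, np p := by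
      rw [nS_split np S T, mul_div_assoc, mul_comm, div_mul_cancel₀ _ hI0.ne']
      rfl
    rw [← h6, cdiv hS0 hI0, neg_neg]
  rw [h5]
  have h7 : ((nS np S : ℝ) : ℂ) ^ (α - 1) * ((nS np S : ℝ) : ℂ) ^ (-(α + β)) =
      ((nS np S : ℝ) : ℂ) ^ (-(1 + β)) := by
    rw [← cadd hS0]
    congr 1
    ring
  have h8 : ((nS np (S ∩ T) : ℝ) : ℂ) * ((nS np (S ∩ T) : ℝ) : ℂ) ^ (α + β) =
      ((nS np (S ∩ T) : ℝ) : ℂ) ^ (1 + α + β) := by
    rw [add_assoc, cadd hI0 1 (α + β), Complex.cpow_one]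
  have h9 : ((nS np T : ℝ) : ℂ) ^ (-1 - α) * ((nS np T : ℝ) : ℂ) ^ (α + β) =
      ((nS np T : ℝ) : ℂ) ^ (-(1 - β)) := by
    rw [← cadd hT0]
    congr 1
    ring
  have h10 : ((nS np S : ℝ) : ℂ) ^ (α - 1) = ((nS np S : ℝ) : ℂ) ^ (-(1 - α)) := by
    congr 1
    ring
  have h11 : ((nS np T : ℝ) : ℂ) ^ (-1 - α) = ((nS np T : ℝ) : ℂ) ^ (-(1 + α)) := by
    congr 1
    ring
  unfold U1 U2
  rw [← h7, ← h8, ← h9, ← h10, ← h11]
  have h12 : ∑ E ∈ (S ∩ T).powerset, ((fS np E : ℝ) : ℂ) *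
      (((nS np E : ℝ) : ℂ) ^ (-(α + β)) * (ck P k (α + β) *
        ((nm k * Q : ℝ) : ℂ) ^ (-(α + β)) * ((nS np T : ℝ) : ℂ) ^ (α + β) * yc)) =
      (∑ E ∈ (S ∩ T).powerset, ((fS np E : ℝ) : ℂ) * ((nS np E : ℝ) : ℂ) ^ (-(α + β))) *
        (ck P k (α + β) * ((nm k * Q : ℝ) : ℂ) ^ (-(α + β)) *
          ((nS np T : ℝ) : ℂ) ^ (α + β) * yc) := by
    rw [Finset.sum_mul]
    exact Finset.sum_congr rfl fun E _ => by ring
  rw [h12]
  ring

end main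

end Pool.Agent.H62.HC
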